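import Mathlib
import Pool.Agent.H337R3.Sid2

set_option autoImplicit false

/-!
Subgaussian sets of characters: the count of the elements in finite subgroups, and the exponential
moments for finite unions of quasi-independent sets.
-/

namespace Pool.Agent.TH275.Sub

open MeasureTheory Finset Pool.Agent.H337R3.Sid
open scoped ENNReal

universe u v

/-- A family of unimodular characters on a probability space, orthogonal to the constants. -/
structure Chars {Γ : Type u} [AddCommGroup Γ] {Ω : Type v} [MeasurableSpace Ω] (μ : Measure Ω)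
    (χ : Γ → Ω → ℂ) : Prop where
  zero : ∀ t, χ 0 t = 1
  add : ∀ m n t, χ (m + n) t = χ m t * χ n t
  norm : ∀ n t, ‖χ n t‖ = 1
  meas : ∀ n, Measurable (χ n)
  orth : ∀ n, n ≠ 0 → ∫ t, χ n t ∂μ = 0

variable {Γ : Type u} [AddCommGroup Γ] [DecidableEq Γ] {Ω : Type v} [MeasurableSpace Ω]
  {μ : Measure Ω} [IsProbabilityMeasure μ] {χ : Γ → Ω → ℂ}

omit [DecidableEq Γ] [IsProbabilityMeasure μ] in
theorem Chars.neg (h : Chars μ χ) (n : Γ) (t : Ω) : χ (-n) t = starRingEnd ℂ (χ n t) := by
  have h1 : χ (-n) t * χ n t = 1 := by rw [← h.add, neg_add_cancel, h.zero]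
  have h2 : starRingEnd ℂ (χ n t) * χ n t = 1 := by
    rw [mul_comm, Complex.mul_conj, Complex.normSq_eq_norm_sq, h.norm]
    simp
  have h3 : χ n t ≠ 0 := by
    intro h4
    have := h.norm n t
    rw [h4, norm_zero] at this
    exact zero_ne_one this
  exact mul_right_cancel₀ h3 (h1.trans h2.symm)

omit [DecidableEq Γ] [IsProbabilityMeasure μ] in
theorem Chars.sum (h : Chars μ χ) {ι : Type*} (s : Finset ι) (f : ι → Γ) (t : Ω) :
    χ (∑ i ∈ s, f i) t = ∏ i ∈ s, χ (f i) t := by
  classical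
  induction s using Finset.induction_on with
  | empty => simp [h.zero]
  | insert a s ha ih => rw [Finset.sum_insert ha, Finset.prod_insert ha, h.add, ih]

omit [DecidableEq Γ] in
theorem Chars.integrable (h : Chars μ χ) (n : Γ) : Integrable (χ n) μ := by
  refine Integrable.of_bound (h.meas n).aestronglyMeasurable 1 ?_
  exact ae_of_all _ fun t => (h.norm n t).le

/-! ### The count in finite subgroups -/

omit [DecidableEq Γ] in
theorem small_of_subgaussian (h : Chars μ χ) (Λ : Set Γ)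
    (hfin : ∀ D : Finset Γ, (D : Set Γ) ⊆ Λ → Finite (AddSubgroup.closure (D : Set Γ)))
    (h0 : (0 : Γ) ∉ Λ) (C : ℝ)
    (hΛ : ∀ A : Finset Γ, (A : Set Γ) ⊆ Λ → ∀ c : ℝ, C * √(A.card) < c →
      ∫ t, Real.exp (‖∑ n ∈ A, χ n t‖ ^ 2 / c ^ 2) ∂μ ≤ Real.exp 1) :
    ∃ K : ℕ, Small K Λ := by
  refine ⟨⌈8 * (C ^ 2 + 1)⌉₊, ?_⟩
  intro A hA
  by_cases hAe : A.Nonempty
  swap
  · rw [Finset.not_nonempty_iff_eq_empty] at hAe
    subst hAe
    simp only [Finset.card_empty, pow_zero]
    apply Nat.one_le_pow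
    have := hfin ∅ (by simp)
    exact Nat.card_pos
  have hAcard : 0 < A.card := Finset.card_pos.mpr hAe
  have hAr : (0 : ℝ) < A.card := by exact_mod_cast hAcard
  set M := AddSubgroup.closure (A : Set Γ) with hM
  have hMfin : Finite M := hfin A hA
  let _ := Fintype.ofFinite M
  set N := Nat.card M with hN
  have hN2 : 2 ≤ N := by
    obtain ⟨x, hx⟩ := hAe
    have hx0 : x ≠ 0 := by
      rintro rfl
      exact h0 (hA hx)
    have : Nontrivial M := ⟨⟨⟨x, AddSubgroup.subset_closure hx⟩, 0, fun h => hx0 (by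
      have := congrArg Subtype.val h
      simpa using this)⟩⟩
    exact Finite.one_lt_card
  have hNr : (2 : ℝ) ≤ N := by exact_mod_cast hN2
  have hN0 : (0 : ℝ) < N := by linarith
  have hmem : ∀ n ∈ A, n ∈ M := fun n hn => AddSubgroup.subset_closure hn
  -- the annihilator
  set Z : Set Ω := {t | ∀ n ∈ A, χ n t = 1} with hZ
  have hZm : MeasurableSet Z := by
    have : Z = ⋂ n ∈ A, {t | χ n t = 1} := by
      ext t; simp [hZ]
    rw [this]
    exact Finset.measurableSet_biInter A fun n _ => (h.meas n) (measurableSet_singleton 1)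
  have hZM : ∀ t ∈ Z, ∀ m ∈ M, χ m t = 1 := by
    intro t ht m hm
    induction hm using AddSubgroup.closure_induction with
    | mem x hx => exact ht x hx
    | zero => exact h.zero t
    | add x y _ _ hx hy => rw [h.add, hx, hy, one_mul]
    | neg x _ hx => rw [h.neg, hx, map_one]
  -- the average of the characters of M is the indicator function of Z
  have havg : ∀ t, ∑ m : M, χ (m : Γ) t = Z.indicator (fun _ => (N : ℂ)) t := by
    intro t
    by_cases ht : t ∈ Z
    · rw [Set.indicator_of_mem ht, Finset.sum_congr rfl (fun (m : M) _ => hZM t ht m m.2)]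
      simp [hN, Nat.card_eq_fintype_card]
    · rw [Set.indicator_of_notMem ht]
      have ht2 : ∃ n ∈ A, χ n t ≠ 1 := by
        by_contra hcon
        push Not at hcon
        exact ht hcon
      obtain ⟨n, hn, hne⟩ := ht2
      have h1 : ∑ m : M, χ (m : Γ) t = χ n t * ∑ m : M, χ (m : Γ) t := by
        rw [Finset.mul_sum]
        rw [← Equiv.sum_comp (Equiv.addLeft (⟨n, hmem n hn⟩ : M))]
        apply Finset.sum_congr rfl
        intro m _
        rw [← h.add]
        rfl
      have h2 : (χ n t - 1) * ∑ m : M, χ (m : Γ) t = 0 := by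
        rw [sub_mul, one_mul, ← h1, sub_self]
      rcases mul_eq_zero.1 h2 with h3 | h3
      · exact absurd (sub_eq_zero.1 h3) hne
      · exact h3
  have hμZ : μ.real Z = 1 / N := by
    have e1 : ∫ t, ∑ m : M, χ (m : Γ) t ∂μ = 1 := by
      rw [integral_finsetSum _ fun m _ => h.integrable _]
      rw [Finset.sum_eq_single (0 : M)]
      · simp [h.zero]
      · intro m _ hm
        apply h.orth
        intro hc
        exact hm (Subtype.ext hc)
      · intro hc
        exact absurd (Finset.mem_univ _) hc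
    have e2 : ∫ t, ∑ m : M, χ (m : Γ) t ∂μ = (μ.real Z : ℂ) * N := by
      simp_rw [havg]
      rw [integral_indicator hZm, setIntegral_const]
      simp
    rw [e1] at e2
    have e3 : (1 : ℝ) = μ.real Z * N := by exact_mod_cast e2
    rw [e3]
    field_simp
  -- the exponential moment
  set c : ℝ := √(2 * (C ^ 2 + 1) * A.card) with hc
  have hc2 : c ^ 2 = 2 * (C ^ 2 + 1) * A.card := Real.sq_sqrt (by positivity)
  have hc0 : 0 < c := Real.sqrt_pos.2 (by positivity)
  have hcC : C * √(A.card) < c := by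
    rw [hc]
    apply Real.lt_sqrt_of_sq_lt
    rw [mul_pow, Real.sq_sqrt hAr.le]
    nlinarith [sq_nonneg C]
  have hbd := hΛ A hA c hcC
  have hint : Integrable (fun t => Real.exp (‖∑ n ∈ A, χ n t‖ ^ 2 / c ^ 2)) μ := by
    have hm : Measurable fun t => ‖∑ n ∈ A, χ n t‖ :=
      (Finset.measurable_fun_sum A fun n _ => h.meas n).norm
    refine Integrable.of_bound (C := Real.exp ((A.card : ℝ) ^ 2 / c ^ 2))
      (Real.measurable_exp.comp ((hm.pow_const 2).div_const _)).aestronglyMeasurable ?_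
    refine ae_of_all _ fun t => ?_
    rw [Real.norm_eq_abs, abs_of_pos (Real.exp_pos _)]
    apply Real.exp_le_exp.2
    have h1 : ‖∑ n ∈ A, χ n t‖ ≤ A.card := by
      refine (norm_sum_le _ _).trans ?_
      simp [h.norm]
    gcongr
  have hlow : 1 / N * Real.exp ((A.card : ℝ) ^ 2 / c ^ 2) ≤ Real.exp 1 := by
    refine le_trans ?_ hbd
    rw [← hμZ]
    calc μ.real Z * Real.exp ((A.card : ℝ) ^ 2 / c ^ 2)
        = ∫ t in Z, Real.exp ((A.card : ℝ) ^ 2 / c ^ 2) ∂μ := by
          rw [setIntegral_const, smul_eq_mul]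
      _ = ∫ t in Z, Real.exp (‖∑ n ∈ A, χ n t‖ ^ 2 / c ^ 2) ∂μ := by
          apply setIntegral_congr_fun hZm
          intro t ht
          show Real.exp _ = Real.exp _
          rw [Finset.sum_congr rfl (fun n hn => ht n hn)]
          simp
      _ ≤ ∫ t, Real.exp (‖∑ n ∈ A, χ n t‖ ^ 2 / c ^ 2) ∂μ :=
          setIntegral_le_integral hint (ae_of_all _ fun t => (Real.exp_pos _).le)
  have hlog : (A.card : ℝ) ^ 2 / c ^ 2 ≤ 1 + Real.log N := by
    have h1 : Real.exp ((A.card : ℝ) ^ 2 / c ^ 2) ≤ N * Real.exp 1 := by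
      rw [one_div, inv_mul_le_iff₀ hN0] at hlow
      exact hlow
    have h2 := Real.log_le_log (Real.exp_pos _) h1
    rw [Real.log_exp, Real.log_mul hN0.ne' (Real.exp_pos _).ne', Real.log_exp] at h2
    linarith
  have hlogN : Real.log 2 ≤ Real.log N := Real.log_le_log (by norm_num) hNr
  have hl2 := Real.log_two_gt_d9
  have hl2' := Real.log_two_lt_d9
  have hcard : (A.card : ℝ) ≤ 2 * (C ^ 2 + 1) * (1 + Real.log N) := by
    rw [hc2, div_le_iff₀ (by positivity)] at hlog
    have h1 : (A.card : ℝ) * A.card ≤ 2 * (C ^ 2 + 1) * (1 + Real.log N) * A.card := by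
      nlinarith
    exact le_of_mul_le_mul_right h1 hAr
  have h5 : (A.card : ℝ) * Real.log 2 ≤ (⌈8 * (C ^ 2 + 1)⌉₊ : ℝ) * Real.log N := by
    have h6 : (A.card : ℝ) * Real.log 2 ≤ A.card := by
      have := mul_le_mul_of_nonneg_left (by linarith : Real.log 2 ≤ 1) hAr.le
      linarith
    have h7 : (1 : ℝ) + Real.log N ≤ 4 * Real.log N := by linarith
    have h8 : 2 * (C ^ 2 + 1) * (1 + Real.log N) ≤ 2 * (C ^ 2 + 1) * (4 * Real.log N) :=
      mul_le_mul_of_nonneg_left h7 (by positivity)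
    have h9 : 8 * (C ^ 2 + 1) * Real.log N ≤ (⌈8 * (C ^ 2 + 1)⌉₊ : ℝ) * Real.log N :=
      mul_le_mul_of_nonneg_right (Nat.le_ceil _) (by linarith)
    linarith
  have h6 : Real.log ((2 : ℝ) ^ A.card) ≤ Real.log ((N : ℝ) ^ ⌈8 * (C ^ 2 + 1)⌉₊) := by
    rw [Real.log_pow, Real.log_pow]
    exact h5
  have h7 := (Real.log_le_log_iff (by positivity) (by positivity)).mp h6
  exact_mod_cast h7

/-! ### Exponential moments for quasi-independent sets -/

theorem exp_le_cosh {a x : ℝ} (hx : |x| ≤ 1) :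
    Real.exp (a * x) ≤ Real.cosh a + x * Real.sinh a := by
  have h1 := abs_le.1 hx
  have h2 := convexOn_exp.2 (Set.mem_univ (-a)) (Set.mem_univ a)
    (show 0 ≤ (1 - x) / 2 by linarith) (show 0 ≤ (1 + x) / 2 by linarith) (by ring)
  simp only [smul_eq_mul] at h2
  have h3 : (1 - x) / 2 * -a + (1 + x) / 2 * a = a * x := by ring
  rw [h3] at h2
  rw [Real.cosh_eq, Real.sinh_eq]
  linarith

/-- The exponential moment. -/
theorem mgf_qi (h : Chars μ χ) {Λ : Set Γ} (hΛ : QI Λ) (A : Finset Γ) (hA : (A : Set Γ) ⊆ Λ)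
    (a : Γ → ℂ) :
    ∫ t, Real.exp ((∑ n ∈ A, a n * χ n t).re) ∂μ ≤ Real.exp ((∑ n ∈ A, ‖a n‖ ^ 2) / 2) := by
  classical
  -- the three weights
  let u : Γ → ℂ := fun n => if a n = 0 then 0 else a n / ‖a n‖
  have hu : ∀ n, a n = ‖a n‖ * u n := by
    intro n
    by_cases hn : a n = 0
    · simp [u, hn]
    · have : (‖a n‖ : ℂ) ≠ 0 := by simpa using hn
      simp only [u, hn, if_false]
      field_simp
  have hu1 : ∀ n, ‖u n‖ ≤ 1 := by
    intro n
    by_cases hn : a n = 0
    · simp [u, hn]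
    · have : ‖a n‖ ≠ 0 := by simpa using hn
      simp only [u, hn, if_false, norm_div, Complex.norm_real, norm_norm]
      rw [div_self this]
  let w : Γ → ℤ → ℂ := fun n e =>
    if e = 0 then (Real.cosh ‖a n‖ : ℂ) else
      if e = 1 then (Real.sinh ‖a n‖ / 2 : ℂ) * u n else
        (Real.sinh ‖a n‖ / 2 : ℂ) * starRingEnd ℂ (u n)
  let T : Finset ℤ := {-1, 0, 1}
  have hfac : ∀ n t, ((Real.cosh ‖a n‖ + (u n * χ n t).re * Real.sinh ‖a n‖ : ℝ) : ℂ) =
      ∑ e ∈ T, w n e * χ (e • n) t := by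
    intro n t
    have e1 : ∑ e ∈ T, w n e * χ (e • n) t =
        w n (-1) * χ ((-1 : ℤ) • n) t + (w n 0 * χ ((0 : ℤ) • n) t + w n 1 * χ ((1 : ℤ) • n) t) := by
      simp only [T]
      rw [Finset.sum_insert (by decide), Finset.sum_insert (by decide), Finset.sum_singleton]
    rw [e1]
    have w1 : w n (-1) = (Real.sinh ‖a n‖ / 2 : ℂ) * starRingEnd ℂ (u n) := rfl
    have w2 : w n 0 = (Real.cosh ‖a n‖ : ℂ) := rfl
    have w3 : w n 1 = (Real.sinh ‖a n‖ / 2 : ℂ) * u n := rfl
    rw [w1, w2, w3, neg_one_zsmul, zero_zsmul, one_zsmul, h.zero, h.neg]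
    have e2 : (((u n * χ n t).re : ℝ) : ℂ) =
        (u n * χ n t + starRingEnd ℂ (u n * χ n t)) / 2 := Complex.re_eq_add_conj _
    push_cast
    rw [e2, map_mul]
    ring
  -- pointwise bound
  have hpt : ∀ t, Real.exp ((∑ n ∈ A, a n * χ n t).re) ≤
      ∏ n ∈ A, (Real.cosh ‖a n‖ + (u n * χ n t).re * Real.sinh ‖a n‖) := by
    intro t
    rw [Complex.re_sum, Real.exp_sum]
    apply Finset.prod_le_prod
    · intro n _; exact (Real.exp_pos _).le
    · intro n _
      have e1 : (a n * χ n t).re = ‖a n‖ * (u n * χ n t).re := by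
        conv_lhs => rw [hu n]
        rw [mul_assoc, Complex.re_ofReal_mul]
      rw [e1]
      apply exp_le_cosh
      refine (Complex.abs_re_le_norm _).trans ?_
      rw [norm_mul, h.norm, mul_one]
      exact hu1 n
  -- the expansion
  have hexp : ∀ t, ((∏ n ∈ A, (Real.cosh ‖a n‖ + (u n * χ n t).re * Real.sinh ‖a n‖) : ℝ) : ℂ) =
      ∑ ξ ∈ Fintype.piFinset (fun _ : A => T), (∏ i : A, w i (ξ i)) * χ (∑ i : A, ξ i • (i : Γ)) t := by
    intro t
    rw [Complex.ofReal_prod, Finset.prod_congr rfl (fun n _ => hfac n t),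
      ← Finset.prod_coe_sort A (fun n => ∑ e ∈ T, w n e * χ (e • n) t),
      Finset.prod_univ_sum]
    apply Finset.sum_congr rfl
    intro ξ _
    rw [Finset.prod_mul_distrib, h.sum]
  have hzero : ∀ ξ ∈ Fintype.piFinset (fun _ : A => T), ξ ≠ 0 → ∑ i : A, ξ i • (i : Γ) ≠ 0 := by
    intro ξ hξ hne hsum
    apply hne
    have hT : ∀ i, ξ i = -1 ∨ ξ i = 0 ∨ ξ i = 1 := by
      intro i
      have := Fintype.mem_piFinset.1 hξ i
      simpa [T] using this
    let ξ' : Γ → ℤ := fun n => if hn : n ∈ A then ξ ⟨n, hn⟩ else 0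
    have h1 : ∑ x ∈ A, ξ' x • x = 0 := by
      rw [← hsum, ← Finset.sum_coe_sort A (fun x => ξ' x • x)]
      apply Finset.sum_congr rfl
      intro i _
      have : ξ' (i : Γ) = ξ i := by
        simp only [ξ', i.2, dif_pos]
      rw [this]
    have h2 := hΛ A hA ξ' (fun x hx => by
      have : ξ' x = ξ ⟨x, hx⟩ := dif_pos hx
      rw [this]
      exact hT _) h1
    funext i
    have h3 := h2 i i.2
    have : ξ' (i : Γ) = ξ i := by
      simp only [ξ', i.2, dif_pos]
    rw [this] at h3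
    exact h3
  have hint2 : ∫ t, (∏ n ∈ A, (Real.cosh ‖a n‖ + (u n * χ n t).re * Real.sinh ‖a n‖)) ∂μ =
      ∏ n ∈ A, Real.cosh ‖a n‖ := by
    have e1 : ((∫ t, (∏ n ∈ A, (Real.cosh ‖a n‖ + (u n * χ n t).re * Real.sinh ‖a n‖)) ∂μ : ℝ) : ℂ) =
        ((∏ n ∈ A, Real.cosh ‖a n‖ : ℝ) : ℂ) := by
      rw [← integral_complex_ofReal]
      simp_rw [hexp]
      rw [integral_finsetSum _ fun ξ _ => (h.integrable _).const_mul _]
      rw [Finset.sum_eq_single (0 : A → ℤ)]
      · rw [integral_const_mul]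
        simp only [Pi.zero_apply, zero_smul, Finset.sum_const_zero, h.zero, integral_const]
        have w2 : ∀ i : A, w i 0 = (Real.cosh ‖a i‖ : ℂ) := fun _ => rfl
        rw [Finset.prod_congr rfl (fun i _ => w2 i),
          Finset.prod_coe_sort A (fun n => (Real.cosh ‖a n‖ : ℂ))]
        simp
      · intro ξ hξ hne
        rw [integral_const_mul, h.orth _ (hzero ξ hξ hne), mul_zero]
      · intro hc
        exfalso
        apply hc
        rw [Fintype.mem_piFinset]
        intro i
        simp [T]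
    exact_mod_cast e1
  have hmeasf : Measurable fun t => (∑ n ∈ A, a n * χ n t) :=
    Finset.measurable_fun_sum A fun n _ => (h.meas n).const_mul _
  have hnb : ∀ t, |(∑ n ∈ A, a n * χ n t).re| ≤ ∑ n ∈ A, ‖a n‖ := by
    intro t
    refine (Complex.abs_re_le_norm _).trans ((norm_sum_le _ _).trans ?_)
    apply Finset.sum_le_sum
    intro n _
    rw [norm_mul, h.norm, mul_one]
  calc ∫ t, Real.exp ((∑ n ∈ A, a n * χ n t).re) ∂μ
      ≤ ∫ t, (∏ n ∈ A, (Real.cosh ‖a n‖ + (u n * χ n t).re * Real.sinh ‖a n‖)) ∂μ := by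
        apply integral_mono
        · refine Integrable.of_bound (C := Real.exp (∑ n ∈ A, ‖a n‖))
            (Real.measurable_exp.comp (Complex.measurable_re.comp hmeasf)).aestronglyMeasurable ?_
          refine ae_of_all _ fun t => ?_
          rw [Real.norm_eq_abs, abs_of_pos (Real.exp_pos _)]
          exact Real.exp_le_exp.2 ((le_abs_self _).trans (hnb t))
        · have e1 : Integrable (fun t => ((∏ n ∈ A,
              (Real.cosh ‖a n‖ + (u n * χ n t).re * Real.sinh ‖a n‖) : ℝ) : ℂ)) μ := by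
            simp_rw [hexp]
            exact integrable_finsetSum _ fun ξ _ => (h.integrable _).const_mul _
          exact e1.re
        · exact hpt
    _ = ∏ n ∈ A, Real.cosh ‖a n‖ := hint2
    _ ≤ ∏ n ∈ A, Real.exp (‖a n‖ ^ 2 / 2) := by
        apply Finset.prod_le_prod
        · intro n _; exact (Real.cosh_pos _).le
        · intro n _; exact Real.cosh_le_exp_half_sq _
    _ = Real.exp ((∑ n ∈ A, ‖a n‖ ^ 2) / 2) := by
        rw [← Real.exp_sum, Finset.sum_div]

/-! ### Square exponential moments -/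

omit [DecidableEq Γ] in
theorem lint_gauss : ∫⁻ g, ENNReal.ofReal (Real.exp (g ^ 2 / 4)) ∂(ProbabilityTheory.gaussianReal 0 1) =
    ENNReal.ofReal (√2) := by
  rw [ProbabilityTheory.gaussianReal_of_var_ne_zero 0 one_ne_zero,
    lintegral_withDensity_eq_lintegral_mul _ (ProbabilityTheory.measurable_gaussianPDF 0 1)
      (by fun_prop)]
  have e1 : ∀ g : ℝ, (ProbabilityTheory.gaussianPDF 0 1 *
      fun g => ENNReal.ofReal (Real.exp (g ^ 2 / 4))) g =
      ENNReal.ofReal ((√(2 * Real.pi))⁻¹ * Real.exp (-(1 / 4) * g ^ 2)) := by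
    intro g
    simp only [Pi.mul_apply, ProbabilityTheory.gaussianPDF, ProbabilityTheory.gaussianPDFReal]
    rw [← ENNReal.ofReal_mul (by positivity)]
    congr 1
    rw [mul_assoc, ← Real.exp_add]
    simp only [NNReal.coe_one, mul_one, sub_zero]
    congr 2
    ring
  simp_rw [e1]
  rw [← ofReal_integral_eq_lintegral_ofReal]
  · congr 1
    rw [integral_const_mul, integral_gaussian]
    rw [← Real.sqrt_inv, ← Real.sqrt_mul (by positivity)]
    congr 1
    have := Real.pi_ne_zero
    field_simp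
    norm_num
  · exact (integrable_exp_neg_mul_sq (by norm_num)).const_mul _
  · exact ae_of_all _ fun g => by positivity

omit [DecidableEq Γ] in
theorem gauss_exp (x : ℝ) : ENNReal.ofReal (Real.exp (x ^ 2 / 2)) =
    ∫⁻ g, ENNReal.ofReal (Real.exp (x * g)) ∂(ProbabilityTheory.gaussianReal 0 1) := by
  rw [← ofReal_integral_eq_lintegral_ofReal
    (ProbabilityTheory.integrable_exp_mul_gaussianReal x) (ae_of_all _ fun g => (Real.exp_pos _).le)]
  have := congrFun (ProbabilityTheory.mgf_fun_id_gaussianReal (μ := 0) (v := 1)) x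
  unfold ProbabilityTheory.mgf at this
  rw [this]
  simp

omit [AddCommGroup Γ] [DecidableEq Γ] in
theorem exp_sq {Y : Ω → ℝ} (hY : Measurable Y) {s : ℝ} (hs : 0 < s)
    (hmgf : ∀ l : ℝ, ∫⁻ t, ENNReal.ofReal (Real.exp (l * Y t)) ∂μ ≤
      ENNReal.ofReal (Real.exp (l ^ 2 * s / 2))) :
    ∫⁻ t, ENNReal.ofReal (Real.exp (Y t ^ 2 / (4 * s))) ∂μ ≤ ENNReal.ofReal (√2) := by
  set r : ℝ := √(2 * s) with hr
  have hr0 : 0 < r := Real.sqrt_pos.2 (by positivity)
  have hr2 : r ^ 2 = 2 * s := Real.sq_sqrt (by positivity)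
  have e1 : ∀ t, ENNReal.ofReal (Real.exp (Y t ^ 2 / (4 * s))) =
      ∫⁻ g, ENNReal.ofReal (Real.exp ((g / r) * Y t)) ∂(ProbabilityTheory.gaussianReal 0 1) := by
    intro t
    have := gauss_exp (Y t / r)
    rw [div_pow, hr2, div_div, show 2 * s * 2 = 4 * s by ring] at this
    rw [this]
    congr 1
    ext g
    congr 2
    ring
  simp_rw [e1]
  rw [lintegral_lintegral_swap]
  · rw [← lint_gauss]
    apply lintegral_mono
    intro g
    refine (hmgf (g / r)).trans (le_of_eq ?_)
    congr 2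
    rw [div_pow, hr2]
    field_simp
    norm_num
  · apply Measurable.aemeasurable
    have : Measurable (Function.uncurry fun (t : Ω) (g : ℝ) => (g / r) * Y t) :=
      (measurable_snd.div_const r).mul (hY.comp measurable_fst)
    exact (Real.measurable_exp.comp this).ennreal_ofReal

/-- The square exponential moment for finite unions of quasi-independent sets. -/
theorem psi2_union (h : Chars μ χ) {k : ℕ} (Q : Fin k → Set Γ) (hQ : ∀ i, QI (Q i))
    (A : Finset Γ) (hA : (A : Set Γ) ⊆ ⋃ i, Q i) (a : Γ → ℂ) (c : ℝ) (hc : 0 < c)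
    (hc2 : 8 * (k : ℝ) ^ 2 * ∑ n ∈ A, ‖a n‖ ^ 2 ≤ c ^ 2) :
    ∫ t, Real.exp (‖∑ n ∈ A, a n * χ n t‖ ^ 2 / c ^ 2) ∂μ ≤ Real.exp 1 := by
  classical
  by_cases hAe : A.Nonempty
  swap
  · rw [Finset.not_nonempty_iff_eq_empty] at hAe
    subst hAe
    simp
  have hk : 0 < k := by
    obtain ⟨x, hx⟩ := hAe
    obtain ⟨i, _⟩ := Set.mem_iUnion.1 (hA hx)
    exact i.pos
  have hkr : (0 : ℝ) < k := by exact_mod_cast hk
  -- the class function
  let κ : Γ → Fin k := fun n => if hn : ∃ i, n ∈ Q i then hn.choose else ⟨0, hk⟩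
  have hκ : ∀ n ∈ A, n ∈ Q (κ n) := by
    intro n hn
    have h1 : ∃ i, n ∈ Q i := Set.mem_iUnion.1 (hA hn)
    have h2 : κ n = h1.choose := dif_pos h1
    rw [h2]
    exact h1.choose_spec
  let F : Fin k → Ω → ℂ := fun i t => ∑ n ∈ A with κ n = i, a n * χ n t
  have hFm : ∀ i, Measurable (F i) := fun i =>
    Finset.measurable_fun_sum _ fun n _ => (h.meas n).const_mul _
  set s : ℝ := c ^ 2 / (8 * (k : ℝ) ^ 2) with hs
  have hs0 : 0 < s := by positivity
  -- exponential moments of the parts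
  have hmg : ∀ (i : Fin k) (z : ℂ), ∫⁻ t, ENNReal.ofReal (Real.exp ((z * F i t).re)) ∂μ ≤
      ENNReal.ofReal (Real.exp (‖z‖ ^ 2 * s / 2)) := by
    intro i z
    have hsub : ((A.filter fun n => κ n = i : Finset Γ) : Set Γ) ⊆ Q i := by
      intro n hn
      have hn' := Finset.mem_filter.1 (Finset.mem_coe.1 hn)
      have := hκ n hn'.1
      rwa [hn'.2] at this
    have h1 := mgf_qi h (hQ i) (A.filter fun n => κ n = i) hsub (fun n => z * a n)
    have h2 : ∀ t, (∑ n ∈ A with κ n = i, z * a n * χ n t) = z * F i t := by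
      intro t
      simp only [F]
      rw [Finset.mul_sum]
      apply Finset.sum_congr rfl
      intro n _
      ring
    simp_rw [h2] at h1
    rw [← ofReal_integral_eq_lintegral_ofReal]
    · apply ENNReal.ofReal_le_ofReal
      refine h1.trans (Real.exp_le_exp.2 ?_)
      have h3 : ∑ n ∈ A with κ n = i, ‖z * a n‖ ^ 2 ≤ ‖z‖ ^ 2 * s := by
        simp_rw [norm_mul, mul_pow]
        rw [← Finset.mul_sum]
        apply mul_le_mul_of_nonneg_left _ (by positivity)
        rw [hs, le_div_iff₀ (by positivity)]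
        refine le_trans ?_ hc2
        rw [mul_comm]
        apply mul_le_mul_of_nonneg_left _ (by positivity)
        exact Finset.sum_le_sum_of_subset_of_nonneg (Finset.filter_subset _ _)
          fun _ _ _ => by positivity
      linarith
    · refine Integrable.of_bound (C := Real.exp (‖z‖ * ∑ n ∈ A with κ n = i, ‖a n‖))
        (Real.measurable_exp.comp (Complex.measurable_re.comp ((hFm i).const_mul z))).aestronglyMeasurable ?_
      refine ae_of_all _ fun t => ?_
      rw [Real.norm_eq_abs, abs_of_pos (Real.exp_pos _)]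
      apply Real.exp_le_exp.2
      refine (Complex.re_le_norm _).trans ?_
      rw [norm_mul]
      apply mul_le_mul_of_nonneg_left _ (norm_nonneg _)
      refine (norm_sum_le _ _).trans ?_
      apply Finset.sum_le_sum
      intro n _
      rw [norm_mul, h.norm, mul_one]
    · exact ae_of_all _ fun t => (Real.exp_pos _).le
  have hre : ∀ i, ∫⁻ t, ENNReal.ofReal (Real.exp ((F i t).re ^ 2 / (4 * s))) ∂μ ≤
      ENNReal.ofReal (√2) := by
    intro i
    apply exp_sq (Complex.measurable_re.comp (hFm i)) hs0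
    intro l
    have h1 := hmg i (l : ℂ)
    rw [Complex.norm_real, Real.norm_eq_abs, sq_abs] at h1
    simpa only [Complex.re_ofReal_mul, Function.comp_apply] using h1
  have him : ∀ i, ∫⁻ t, ENNReal.ofReal (Real.exp ((F i t).im ^ 2 / (4 * s))) ∂μ ≤
      ENNReal.ofReal (√2) := by
    intro i
    apply exp_sq (Complex.measurable_im.comp (hFm i)) hs0
    intro l
    have h1 := hmg i (-(l : ℂ) * Complex.I)
    have h2 : ‖-(l : ℂ) * Complex.I‖ ^ 2 = l ^ 2 := by
      rw [norm_mul, Complex.norm_I, mul_one, norm_neg, Complex.norm_real, Real.norm_eq_abs, sq_abs]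
    rw [h2] at h1
    have h3 : ∀ t, (-(l : ℂ) * Complex.I * F i t).re = l * (F i t).im := by
      intro t
      simp [Complex.mul_re]
    simp_rw [h3] at h1
    exact h1
  -- the pointwise bound
  have hpt : ∀ t, Real.exp (‖∑ n ∈ A, a n * χ n t‖ ^ 2 / c ^ 2) ≤
      ∑ i : Fin k, ((1 / (2 * k) : ℝ) * Real.exp ((F i t).re ^ 2 / (4 * s)) +
        (1 / (2 * k) : ℝ) * Real.exp ((F i t).im ^ 2 / (4 * s))) := by
    intro t
    have h1 : ∑ n ∈ A, a n * χ n t = ∑ i : Fin k, F i t :=
      (Finset.sum_fiberwise A κ _).symm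
    have h2 : ‖∑ n ∈ A, a n * χ n t‖ ^ 2 ≤ k * ∑ i : Fin k, ‖F i t‖ ^ 2 := by
      rw [h1]
      calc ‖∑ i : Fin k, F i t‖ ^ 2 ≤ (∑ i : Fin k, ‖F i t‖) ^ 2 := by
            gcongr
            exact norm_sum_le _ _
        _ ≤ _ := by
            have := sq_sum_le_card_mul_sum_sq (s := (Finset.univ : Finset (Fin k)))
              (f := fun i => ‖F i t‖)
            simpa using this
    have h3 : ‖∑ n ∈ A, a n * χ n t‖ ^ 2 / c ^ 2 ≤
        ∑ i : Fin k, (1 / k : ℝ) • ((k : ℝ) ^ 2 / c ^ 2 * ‖F i t‖ ^ 2) := by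
      rw [div_le_iff₀ (by positivity)]
      refine h2.trans (le_of_eq ?_)
      rw [Finset.mul_sum, Finset.sum_mul]
      apply Finset.sum_congr rfl
      intro i _
      simp only [smul_eq_mul]
      field_simp
    refine (Real.exp_le_exp.2 h3).trans ?_
    refine (convexOn_exp.map_sum_le (fun i _ => by positivity) (by simp [hkr.ne'])
      (fun i _ => Set.mem_univ _)).trans ?_
    apply Finset.sum_le_sum
    intro i _
    simp only [smul_eq_mul]
    have h4 : (k : ℝ) ^ 2 / c ^ 2 * ‖F i t‖ ^ 2 =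
        (1 / 2 : ℝ) * ((F i t).re ^ 2 / (4 * s)) + (1 / 2 : ℝ) * ((F i t).im ^ 2 / (4 * s)) := by
      rw [← Complex.normSq_eq_norm_sq, Complex.normSq_apply, hs]
      field_simp
      ring
    rw [h4]
    have h5 := convexOn_exp.2 (Set.mem_univ ((F i t).re ^ 2 / (4 * s)))
      (Set.mem_univ ((F i t).im ^ 2 / (4 * s))) (by norm_num : (0 : ℝ) ≤ 1 / 2)
      (by norm_num : (0 : ℝ) ≤ 1 / 2) (by norm_num)
    simp only [smul_eq_mul] at h5
    calc (1 / k : ℝ) * Real.exp _ ≤ (1 / k : ℝ) * _ := mul_le_mul_of_nonneg_left h5 (by positivity)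
      _ = _ := by field_simp
  have hfin : ∫⁻ t, ENNReal.ofReal (Real.exp (‖∑ n ∈ A, a n * χ n t‖ ^ 2 / c ^ 2)) ∂μ ≤
      ENNReal.ofReal (√2) := by
    have m1 : ∀ i, Measurable fun t => ENNReal.ofReal (Real.exp ((F i t).re ^ 2 / (4 * s))) :=
      fun i => (Real.measurable_exp.comp
        (((Complex.measurable_re.comp (hFm i)).pow_const 2).div_const _)).ennreal_ofReal
    have m2 : ∀ i, Measurable fun t => ENNReal.ofReal (Real.exp ((F i t).im ^ 2 / (4 * s))) :=
      fun i => (Real.measurable_exp.comp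
        (((Complex.measurable_im.comp (hFm i)).pow_const 2).div_const _)).ennreal_ofReal
    calc ∫⁻ t, ENNReal.ofReal (Real.exp (‖∑ n ∈ A, a n * χ n t‖ ^ 2 / c ^ 2)) ∂μ
        ≤ ∫⁻ t, ∑ i : Fin k, (ENNReal.ofReal (1 / (2 * k) : ℝ) *
            ENNReal.ofReal (Real.exp ((F i t).re ^ 2 / (4 * s))) +
          ENNReal.ofReal (1 / (2 * k) : ℝ) *
            ENNReal.ofReal (Real.exp ((F i t).im ^ 2 / (4 * s)))) ∂μ := by
          apply lintegral_mono
          intro t
          refine (ENNReal.ofReal_le_ofReal (hpt t)).trans (le_of_eq ?_)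
          rw [ENNReal.ofReal_sum_of_nonneg (fun i _ => by positivity)]
          apply Finset.sum_congr rfl
          intro i _
          rw [ENNReal.ofReal_add (by positivity) (by positivity),
            ENNReal.ofReal_mul (by positivity), ENNReal.ofReal_mul (by positivity)]
      _ = ∑ i : Fin k, (ENNReal.ofReal (1 / (2 * k) : ℝ) *
            ∫⁻ t, ENNReal.ofReal (Real.exp ((F i t).re ^ 2 / (4 * s))) ∂μ +
          ENNReal.ofReal (1 / (2 * k) : ℝ) *
            ∫⁻ t, ENNReal.ofReal (Real.exp ((F i t).im ^ 2 / (4 * s))) ∂μ) := by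
          rw [lintegral_finsetSum (Finset.univ : Finset (Fin k)) (f := fun i t =>
            (ENNReal.ofReal (1 / (2 * k) : ℝ) *
              ENNReal.ofReal (Real.exp ((F i t).re ^ 2 / (4 * s))) +
            ENNReal.ofReal (1 / (2 * k) : ℝ) *
              ENNReal.ofReal (Real.exp ((F i t).im ^ 2 / (4 * s)))))
            fun i _ => ((m1 i).const_mul _).add ((m2 i).const_mul _)]
          apply Finset.sum_congr rfl
          intro i _
          rw [lintegral_add_left ((m1 i).const_mul _), lintegral_const_mul _ (m1 i),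
            lintegral_const_mul _ (m2 i)]
      _ ≤ ∑ i : Fin k, (ENNReal.ofReal (1 / (2 * k) : ℝ) * ENNReal.ofReal (√2) +
          ENNReal.ofReal (1 / (2 * k) : ℝ) * ENNReal.ofReal (√2)) := by
          apply Finset.sum_le_sum
          intro i _
          exact add_le_add (mul_le_mul_right (hre i) _) (mul_le_mul_right (him i) _)
      _ = ENNReal.ofReal (√2) := by
          rw [Finset.sum_const, Finset.card_univ, Fintype.card_fin, ← ENNReal.ofReal_mul (by positivity),
            ← ENNReal.ofReal_add (by positivity) (by positivity), nsmul_eq_mul,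
            ← ENNReal.ofReal_natCast, ← ENNReal.ofReal_mul (by positivity)]
          congr 1
          field_simp
          ring
  have hmf : Measurable fun t => Real.exp (‖∑ n ∈ A, a n * χ n t‖ ^ 2 / c ^ 2) := by
    have : Measurable fun t => ‖∑ n ∈ A, a n * χ n t‖ :=
      (Finset.measurable_fun_sum A fun n _ => (h.meas n).const_mul _).norm
    exact Real.measurable_exp.comp ((this.pow_const 2).div_const _)
  rw [integral_eq_lintegral_of_nonneg_ae (ae_of_all _ fun t => (Real.exp_pos _).le)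
    hmf.aestronglyMeasurable]
  calc (∫⁻ t, ENNReal.ofReal (Real.exp (‖∑ n ∈ A, a n * χ n t‖ ^ 2 / c ^ 2)) ∂μ).toReal
      ≤ (ENNReal.ofReal (√2)).toReal := ENNReal.toReal_mono ENNReal.ofReal_ne_top hfin
    _ = √2 := ENNReal.toReal_ofReal (Real.sqrt_nonneg 2)
    _ ≤ 2 := by
        rw [Real.sqrt_le_left (by norm_num)]
        norm_num
    _ ≤ Real.exp 1 := by
        have := Real.add_one_le_exp 1
        linarith

end Pool.Agent.TH275.Sub
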